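import Pool.Agent.H76.CCS.Main

open Pool.Agent.H76.CCS

namespace Pool.Agent.Results.MP_4ae49d_lc.ContinuousCase

/-- **Main theorem.**  Let `f : 2^ω → 2^ω` be `(≡_T, ≡_m)`-invariant and let `h : 2^ω → 2^ω`
satisfy `h z ≡_T z` for all `z` in the cone above `c` (for instance `h = id`, or the canonical map
of `2^ω` onto the paths of a pointed perfect tree).  If `f ∘ h` is continuous on the cone above `c`
then the many-one degree of `f x` is constant on a cone. -/
theorem result (f h : (ℕ → Bool) → (ℕ → Bool)) (c : ℕ → Bool)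
    (hf : ∀ x y, TEq x y → MEq (f x) (f y))
    (hh : ∀ z, TLe c z → TEq (h z) z)
    (hcont : ContinuousOn (fun z => f (h z)) {z | TLe c z}) :
    ∃ b, ∀ x, TLe b x → MEq (f x) (f b) :=
  main f h c hf hh hcont

end Pool.Agent.Results.MP_4ae49d_lc.ContinuousCase
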